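import Pool.Agent.Y462.AR.Tool
import Pool.Agent.Y547.GE.PP

/-!
# The braid group on three strands acts faithfully (helper454, job AR-DIH3)
-/

set_option autoImplicit false

namespace Pool.Agent.Y454.AR

open Pool.Agent.Y462.AR
open Pool.Agent.Y462.PA (Am)

/-- the first generator -/
def pS : Equiv.Perm (ℤ × ℤ) where
  toFun v := (v.1 + v.2, v.2)
  invFun v := (v.1 - v.2, v.2)
  left_inv v := by simp
  right_inv v := by simp

/-- the second generator -/
def pT : Equiv.Perm (ℤ × ℤ) where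
  toFun v := (v.1, v.2 - v.1)
  invFun v := (v.1, v.2 + v.1)
  left_inv v := by simp
  right_inv v := by simp

theorem pS_app (v : ℤ × ℤ) : pS v = (v.1 + v.2, v.2) := rfl

theorem pT_app (v : ℤ × ℤ) : pT v = (v.1, v.2 - v.1) := rfl

theorem rel3 : alt 3 pS pT = alt 3 pT pS := by
  change pS * (pT * (pS * 1)) = pT * (pS * (pT * 1))
  apply Equiv.ext
  intro v
  simp only [Equiv.Perm.mul_apply, Equiv.Perm.one_apply, pS_app, pT_app]
  apply Prod.ext
  · simp only; ring
  · simp only; ring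

theorem zpow_pm (σ : Equiv.Perm (ℤ × ℤ)) (h : ∀ v, σ v = (-v.1, -v.2)) (k : ℤ) (v : ℤ × ℤ) :
    (σ ^ k) v = v ∨ (σ ^ k) v = (-v.1, -v.2) := by
  have h2 : σ * σ = 1 := by
    apply Equiv.ext
    intro v
    rw [Equiv.Perm.mul_apply, h, h, Equiv.Perm.one_apply]
    simp
  obtain ⟨m, rfl | rfl⟩ := Int.even_or_odd' k
  · left
    rw [zpow_mul, zpow_two, h2, one_zpow, Equiv.Perm.one_apply]
  · right
    rw [zpow_add, zpow_mul, zpow_two, h2, one_zpow, one_mul, zpow_one, h]

theorem core {G : Type} [Group G] (a c : G) (hrel : a * c * a = c * a * c)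
    (φ : G →* Equiv.Perm (ℤ × ℤ)) (ha : ∀ v, φ a v = (v.1 + v.2, v.2))
    (hc : ∀ v, φ c v = (v.1, v.2 - v.1)) (len : G →* Multiplicative ℤ)
    (la : len a = Multiplicative.ofAdd 1) (lc : len c = Multiplicative.ofAdd 1)
    (hgen : ∀ S : Subgroup G, a ∈ S → c ∈ S → ∀ g, g ∈ S) (g : G) (h1 : φ g = 1)
    (h2 : len g = 1) : g = 1 := by
  obtain ⟨X, hXd⟩ : ∃ X : G, X = a * c := ⟨_, rfl⟩
  obtain ⟨Y, hYd⟩ : ∃ Y : G, Y = a * c * a := ⟨_, rfl⟩
  have hXY : X ^ 3 = Y ^ 2 := by
    calc X ^ 3 = (a * c * a) * (c * a * c) := by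
          rw [hXd, pow_succ, pow_two]; simp only [mul_assoc]
      _ = Y ^ 2 := by rw [← hrel, hYd, pow_two]
  have hX : ∀ v, φ X v = (v.2, v.2 - v.1) := by
    intro v
    rw [hXd, map_mul, Equiv.Perm.mul_apply, hc, ha]
    simp
  have hY : ∀ v, φ Y v = (v.2, -v.1) := by
    intro v
    rw [hYd, map_mul, map_mul, Equiv.Perm.mul_apply, Equiv.Perm.mul_apply, ha, hc, ha]
    simp
  have hz : ∀ v, φ (Y ^ 2) v = (-v.1, -v.2) := by
    intro v
    rw [map_pow, pow_two, Equiv.Perm.mul_apply, hY, hY]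
  have pm : ∀ (k : ℤ) (w : ℤ × ℤ), φ ((Y ^ 2) ^ k) w = w ∨ φ ((Y ^ 2) ^ k) w = (-w.1, -w.2) := by
    intro k w
    rw [map_zpow]
    exact zpow_pm _ hz k w
  have hP : ∀ (k : ℤ) (w : ℤ × ℤ),
      (φ ((Y ^ 2) ^ k) w).1 * (φ ((Y ^ 2) ^ k) w).2 = w.1 * w.2 := by
    intro k w
    rcases pm k w with h | h
    · rw [h]
    · rw [h]; simp only; ring
  have hD : ∀ (k : ℤ) (w : ℤ × ℤ),
      (φ ((Y ^ 2) ^ k) w).1.natAbs + (φ ((Y ^ 2) ^ k) w).2.natAbs =
        w.1.natAbs + w.2.natAbs := by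
    intro k w
    rcases pm k w with h | h
    · rw [h]
    · rw [h]; simp only [Int.natAbs_neg]
  let α : Multiplicative ℤ →* Multiplicative ℤ := powMonoidHom 2
  let β : Multiplicative ℤ →* Multiplicative ℤ := powMonoidHom 3
  have hglue : ∀ k : Multiplicative ℤ, zpowersHom G Y (α k) = zpowersHom G X (β k) := by
    intro k
    change zpowersHom G Y (k ^ 2) = zpowersHom G X (k ^ 3)
    rw [map_pow, map_pow, zpowersHom_apply, zpowersHom_apply]
    calc (Y ^ Multiplicative.toAdd k) ^ 2 = (Y ^ 2) ^ Multiplicative.toAdd k := by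
          rw [← zpow_natCast (Y ^ _), ← zpow_natCast Y, ← zpow_mul, ← zpow_mul, mul_comm]
      _ = (X ^ 3) ^ Multiplicative.toAdd k := by rw [hXY]
      _ = (X ^ Multiplicative.toAdd k) ^ 3 := by
          rw [← zpow_natCast (X ^ _), ← zpow_natCast X, ← zpow_mul, ← zpow_mul, mul_comm]
  let θ : Am α β →* G := Am.lift α β (zpowersHom G Y) (zpowersHom G X) hglue
  have θA : ∀ n : Multiplicative ℤ, θ (Am.inl α β n) = Y ^ Multiplicative.toAdd n := by
    intro n
    change Am.lift α β (zpowersHom G Y) (zpowersHom G X) hglue (Am.inl α β n) = _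
    rw [Am.lift_inl, zpowersHom_apply]
  have θB : ∀ n : Multiplicative ℤ, θ (Am.inr α β n) = X ^ Multiplicative.toAdd n := by
    intro n
    change Am.lift α β (zpowersHom G Y) (zpowersHom G X) hglue (Am.inr α β n) = _
    rw [Am.lift_inr, zpowersHom_apply]
  have θK : ∀ k : Multiplicative ℤ, θ (Am.inl α β (α k)) = (Y ^ 2) ^ Multiplicative.toAdd k := by
    intro k
    rw [θA]
    change Y ^ Multiplicative.toAdd (k ^ 2) = _
    rw [toAdd_pow, ← zpow_natCast Y, ← zpow_mul]
    congr 1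
  let f : Am α β →* Equiv.Perm ((ℤ × ℤ) × ℤ) := (act φ len).comp θ
  have hf : ∀ x v, f x v = (φ (θ x) v.1, v.2 + Multiplicative.toAdd (len (θ x))) :=
    fun _ _ => rfl
  have hinj : Function.Injective f := by
    apply Pool.Agent.Y547.GE.t_pp (Multiplicative ℤ) (Multiplicative ℤ) (Multiplicative ℤ)
      ((ℤ × ℤ) × ℤ) α β f {v | v.1.1 * v.1.2 < 0} {v | 0 < v.1.1 * v.1.2}
      (fun v => WithBot.some (v.1.1.natAbs + v.1.2.natAbs))
    · rw [Set.disjoint_left]
      intro v h3 h4
      have h3' : v.1.1 * v.1.2 < 0 := h3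
      have h4' : 0 < v.1.1 * v.1.2 := h4
      linarith
    · exact ⟨((1, -1), 0), by simp⟩
    · exact ⟨((1, 1), 0), by simp⟩
    · intro n hn v hv
      obtain ⟨m, hm⟩ : ∃ m : ℤ, Multiplicative.toAdd n = 2 * m + 1 := by
        obtain ⟨m, hm | hm⟩ := Int.even_or_odd' (Multiplicative.toAdd n)
        · exfalso
          apply hn
          refine ⟨Multiplicative.ofAdd m, ?_⟩
          change Multiplicative.ofAdd m ^ 2 = n
          rw [← ofAdd_nsmul, nsmul_eq_mul]
          rw [show ((2 : ℕ) : ℤ) * m = Multiplicative.toAdd n by rw [hm]; rfl]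
          exact ofAdd_toAdd n
        · exact ⟨m, hm⟩
      have e1 : θ (Am.inl α β n) = (Y ^ 2) ^ m * Y := by
        rw [θA, hm, zpow_add, zpow_one, zpow_mul, zpow_ofNat Y 2]
      have hv' : 0 < v.1.1 * v.1.2 := hv
      rw [hf, e1, map_mul, Equiv.Perm.mul_apply, hY]
      refine ⟨?_, ?_⟩
      · change (φ ((Y ^ 2) ^ m) (v.1.2, -v.1.1)).1 * (φ ((Y ^ 2) ^ m) (v.1.2, -v.1.1)).2 < 0
        rw [hP]
        simp only
        nlinarith
      · apply WithBot.coe_le_coe.2
        simp only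
        rw [hD]
        simp only
        omega
    · intro n hn v hv
      obtain ⟨m, r, hr, hm⟩ : ∃ m r : ℤ, (r = 1 ∨ r = 2) ∧
          Multiplicative.toAdd n = 3 * m + r := by
        refine ⟨Multiplicative.toAdd n / 3, Multiplicative.toAdd n % 3, ?_, by omega⟩
        by_contra hcon
        have h3 : Multiplicative.toAdd n % 3 = 0 := by omega
        apply hn
        refine ⟨Multiplicative.ofAdd (Multiplicative.toAdd n / 3), ?_⟩
        change Multiplicative.ofAdd (Multiplicative.toAdd n / 3) ^ 3 = n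
        rw [← ofAdd_nsmul, nsmul_eq_mul]
        rw [show ((3 : ℕ) : ℤ) * (Multiplicative.toAdd n / 3) = Multiplicative.toAdd n by
          push_cast; omega]
        exact ofAdd_toAdd n
      have e1 : θ (Am.inr α β n) = (Y ^ 2) ^ m * X ^ r := by
        rw [θB, hm, zpow_add, zpow_mul, ← hXY, zpow_ofNat X 3]
      have hv' : v.1.1 * v.1.2 < 0 := hv
      have hs := mul_neg_iff.1 hv'
      rw [hf, e1, map_mul, Equiv.Perm.mul_apply]
      rcases hr with rfl | rfl
      · rw [zpow_one, hX]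
        refine ⟨?_, ?_⟩
        · change 0 < (φ ((Y ^ 2) ^ m) (v.1.2, v.1.2 - v.1.1)).1 *
            (φ ((Y ^ 2) ^ m) (v.1.2, v.1.2 - v.1.1)).2
          rw [hP]
          simp only
          nlinarith [mul_self_nonneg v.1.2]
        · apply WithBot.coe_lt_coe.2
          simp only
          rw [hD]
          simp only
          omega
      · rw [zpow_two, map_mul, Equiv.Perm.mul_apply, hX, hX]
        refine ⟨?_, ?_⟩
        · change 0 < (φ ((Y ^ 2) ^ m) (v.1.2 - v.1.1, v.1.2 - v.1.1 - v.1.2)).1 *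
            (φ ((Y ^ 2) ^ m) (v.1.2 - v.1.1, v.1.2 - v.1.1 - v.1.2)).2
          rw [hP]
          simp only
          nlinarith [mul_self_nonneg v.1.1]
        · apply WithBot.coe_lt_coe.2
          simp only
          rw [hD]
          simp only
          omega
    · intro k v hv
      have hv' : v.1.1 * v.1.2 < 0 := hv
      rw [hf, θK]
      refine ⟨?_, ?_⟩
      · change (φ ((Y ^ 2) ^ Multiplicative.toAdd k) v.1).1 *
          (φ ((Y ^ 2) ^ Multiplicative.toAdd k) v.1).2 < 0
        rw [hP]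
        exact hv'
      · simp only
        rw [hD]
    · intro k v hv
      have hv' : 0 < v.1.1 * v.1.2 := hv
      rw [hf, θK]
      refine ⟨?_, ?_⟩
      · change 0 < (φ ((Y ^ 2) ^ Multiplicative.toAdd k) v.1).1 *
          (φ ((Y ^ 2) ^ Multiplicative.toAdd k) v.1).2
        rw [hP]
        exact hv'
      · simp only
        rw [hD]
    · intro k hk
      have h3 := congrArg (fun σ : Equiv.Perm ((ℤ × ℤ) × ℤ) => (σ ((0, 0), 0)).2) hk
      simp only [hf, θK, Equiv.Perm.one_apply] at h3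
      rw [map_zpow, map_pow, hYd, map_mul, map_mul, la, lc, toAdd_zpow, toAdd_pow, toAdd_mul,
        toAdd_mul, toAdd_ofAdd] at h3
      have h4 : Multiplicative.toAdd k = 0 := by
        simp only [smul_eq_mul, nsmul_eq_mul, zero_add] at h3
        push_cast at h3
        omega
      exact Multiplicative.toAdd.injective (h4.trans toAdd_one.symm)
  have hX1 : X ∈ θ.range := ⟨Am.inr α β (Multiplicative.ofAdd 1), by
    rw [θB, toAdd_ofAdd, zpow_one]⟩
  have hY1 : Y ∈ θ.range := ⟨Am.inl α β (Multiplicative.ofAdd 1), by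
    rw [θA, toAdd_ofAdd, zpow_one]⟩
  have ha1 : a ∈ θ.range := by
    have e : a = X⁻¹ * Y := by rw [hXd, hYd]; group
    rw [e]
    exact mul_mem (inv_mem hX1) hY1
  have hc1 : c ∈ θ.range := by
    have e : c = a⁻¹ * X := by rw [hXd]; group
    rw [e]
    exact mul_mem (inv_mem ha1) hX1
  obtain ⟨x, rfl⟩ := hgen θ.range ha1 hc1 g
  have h3 : f x = 1 := by
    apply Equiv.ext
    intro v
    rw [hf, h1, h2, Equiv.Perm.one_apply, Equiv.Perm.one_apply, toAdd_one, add_zero]
  have h4 : x = 1 := hinj (by rw [h3, map_one])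
  rw [h4, map_one]

theorem t_dih3 : S_DIH 3 := by
  classical
  intro b
  obtain ⟨φ, hφ⟩ := t_lift Bool (Equiv.Perm (ℤ × ℤ)) (fun _ _ => 3)
    (fun s => if s = b then pS else pT) (by
      intro s t _
      by_cases hs : s = b
      · by_cases ht : t = b
        · rw [hs, ht]
        · simp only [hs, ht, if_true, if_false]
          exact rel3
      · by_cases ht : t = b
        · simp only [hs, ht, if_true, if_false]
          exact rel3.symm
        · simp only [hs, ht, if_false])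
  have ha : φ (gen _ b) = pS := by
    rw [hφ]; simp
  have hc : φ (gen _ (!b)) = pT := by
    rw [hφ]; simp
  have hkap : kap 3 = 1 := by
    unfold kap; norm_num
  refine ⟨φ, fun x y => by rw [ha]; rfl, fun x y => by rw [hc, hkap, one_mul]; rfl, ?_⟩
  intro len hlen g h1 h2
  have hrel := t_rel Bool (fun _ _ => 3) b (!b) (by norm_num)
  refine core (gen _ b) (gen _ (!b)) ?_ φ (fun v => by rw [ha]; rfl) (fun v => by rw [hc]; rfl)
    len (hlen _) (hlen _) ?_ g h1 h2
  · simp only [alt, mul_one] at hrel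
    rw [mul_assoc, mul_assoc]
    exact hrel
  · intro S hS1 hS2 g
    apply mem_of_gen S
    intro s
    by_cases hs : s = b
    · rw [hs]; exact hS1
    · have : s = !b := by cases s <;> cases b <;> simp_all
      rw [this]; exact hS2

end Pool.Agent.Y454.AR
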